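import Pool.Agent.Helper501.Hdc.Main

/-!
The Hausdorff dimension of the closure of the group generated by the states of a finite invertible
automaton is not computable, even for a fixed number of letters and a fixed precision. All
definitions used in the statement are in `Pool.Agent.Helper501.Hdc.Defs`.
-/

namespace Pool.Agent.Results.MP_4ffd61_al.Uncomputable

open Equiv Pool.Agent.Helper501.Hdc.Official

/-- Sanity check: the number of restrictions of tree automorphisms to the first `n` levels. -/
theorem levelCard_treeAut (m : ℕ) (hm : 2 ≤ m) (n : ℕ) :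
    levelCard n (treeAut m) = m.factorial ^ ((m ^ n - 1) / (m - 1)) := by
  open Pool.Agent.Helper501.Haus in
  have : Nonempty (Fin m) := ⟨⟨0, by omega⟩⟩
  change Pool.Agent.Helper501.Haus.levelCard n (Pool.Agent.Helper501.Haus.treeAut m) = _
  rw [treeAut_eq, levelCard_map hm, ← Nat.geomSum_eq hm]
  induction n with
  | zero => rw [cc_zero]; simp
  | succ n ih =>
    rw [cc_succ, ih, Finset.sum_range_succ, pow_add, mul_comm]
    congr 1
    rw [KK_top, Subgroup.card_top, Nat.card_eq_fintype_card, Fintype.card_fun, Fintype.card_perm, card_Wd,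
      Fintype.card_fin]

/-- Sanity check: the group of an automaton consists of automorphisms of the tree. -/
theorem group_sub (A : Automaton) {g : Perm (List (Fin A.m))} (hg : g ∈ A.group) :
    g ∈ treeAut A.m := by
  have hlen : ∀ (w : List (Fin A.m)) (q : Fin A.s), (A.act q w).length = w.length := by
    intro w
    induction w with
    | nil => intro q; rfl
    | cons x w ih => intro q; simp [Automaton.act, ih]
  have hpre : ∀ (u : List (Fin A.m)) (q : Fin A.s) (v : List (Fin A.m)), u <+: v →
      A.act q u <+: A.act q v := by
    intro u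
    induction u with
    | nil => intro q v _; exact List.nil_prefix
    | cons x u ih =>
      rintro q _ ⟨t, rfl⟩
      rw [List.cons_append]
      simp only [Automaton.act, List.cons_prefix_cons, true_and]
      exact ih _ _ (List.prefix_append u t)
  have hinv : ∀ {g : Perm (List (Fin A.m))}, g ∈ treeAut A.m → g⁻¹ ∈ treeAut A.m := by
    intro g hg
    have ai : ∀ w, g (g⁻¹ w) = w := fun w => g.apply_symm_apply w
    have ia : ∀ w, g⁻¹ (g w) = w := fun w => g.symm_apply_apply w
    refine ⟨fun w => ?_, fun u v huv => ?_⟩
    · have := hg.1 (g⁻¹ w)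
      rw [ai] at this
      exact this.symm
    · have h1 : (g⁻¹ u).length ≤ (g⁻¹ v).length := by
        have e1 := hg.1 (g⁻¹ u)
        have e2 := hg.1 (g⁻¹ v)
        rw [ai] at e1 e2
        rw [← e1, ← e2]
        exact huv.length_le
      have h2 : (g⁻¹ v).take (g⁻¹ u).length <+: g⁻¹ v := List.take_prefix _ _
      have h3 := hg.2 _ _ h2
      rw [ai] at h3
      have h4 : (g ((g⁻¹ v).take (g⁻¹ u).length)).length = u.length := by
        rw [hg.1, List.length_take, min_eq_left h1]
        have e1 := hg.1 (g⁻¹ u)
        rw [ai] at e1
        exact e1.symm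
      have h5 : g ((g⁻¹ v).take (g⁻¹ u).length) = u :=
        (List.prefix_of_prefix_length_le h3 huv h4.le).eq_of_length h4
      have h6 : (g⁻¹ v).take (g⁻¹ u).length = g⁻¹ u :=
        (ia _).symm.trans (congrArg (fun w => g⁻¹ w) h5)
      rw [← h6]
      exact h2
  refine Subgroup.closure_induction (p := fun g _ => g ∈ treeAut A.m) ?_ ?_ ?_ ?_ hg
  · rintro _ ⟨q, rfl⟩
    exact ⟨fun w => hlen w q, fun u v h => hpre u q v h⟩
  · exact ⟨fun _ => rfl, fun _ _ h => h⟩
  · intro a b _ _ ha hb
    exact ⟨fun w => by rw [Perm.mul_apply, ha.1, hb.1], fun u v h => ha.2 _ _ (hb.2 _ _ h)⟩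
  · intro a _ ha
    exact hinv ha

/-- There are a number `m` of letters and a precision `k` such that every algorithm `f` (a partial
recursive function of the tables of an automaton and of a number, whose values are fractions given
by numerator and denominator) fails on the tables of some automaton with `m` letters and on `k`: it
has no output, or its output is at distance more than `(1/2)^k` from the Hausdorff dimension of the
closure of the group generated by the states. -/
theorem result : ∃ m k : ℕ, 1 ≤ k ∧
    ∀ f : (ℕ × ℕ × List (List (ℕ × ℕ))) × ℕ →. ℤ × ℕ, Partrec f →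
      ∃ A : Automaton, A.m = m ∧ ¬ ∃ r ∈ f (A.tables, k),
        |(r.1 : ℝ) / (r.2 : ℝ) - hdim (treeClosure A.group)| ≤ (1 / 2 : ℝ) ^ k :=
  Pool.Agent.Helper501.Hdc.uncomputable

end Pool.Agent.Results.MP_4ffd61_al.Uncomputable
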